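import Mathlib

/-!
# A counterexample to Kohl's `42`-question on groups generated by three class transpositions

The group `G` generated by the class transpositions
`τ_{0(2),1(2)}`, `τ_{0(2),3(4)}`, `τ_{4(6),0(27)}` (here `m = lcm(2,2,2,4,6,27) = 108`)
stabilises only the trivial unions of residue classes modulo `108`, the integers
`0, 1, …, 51` lie in one orbit, and nevertheless `G` has infinitely many orbits on `ℕ₀`;
in particular `52` is not in the orbit of `0`.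
-/

namespace Pool.Agent.Results.MP_d0f150_al.FortyTwoCounterexample

/-- The residue class `r(m) = r + mℤ`. -/
def resClass (r m : ℕ) : Set ℤ := {n | ∃ k : ℤ, n = r + k * m}

/-- `τ` is the class transposition interchanging the disjoint residue classes `r₁(m₁)` and
`r₂(m₂)`, where `0 ≤ rᵢ < mᵢ`. -/
structure IsClassTransposition (τ : Equiv.Perm ℤ) (r₁ m₁ r₂ m₂ : ℕ) : Prop where
  lt₁ : r₁ < m₁
  lt₂ : r₂ < m₂
  disjoint : Disjoint (resClass r₁ m₁) (resClass r₂ m₂)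
  map₁ : ∀ k : ℤ, τ (r₁ + k * m₁) = r₂ + k * m₂
  map₂ : ∀ k : ℤ, τ (r₂ + k * m₂) = r₁ + k * m₁
  fixed : ∀ n : ℤ, n ∉ resClass r₁ m₁ → n ∉ resClass r₂ m₂ → τ n = n

/-- `S` is a union of residue classes modulo `m`. -/
def IsUnionOfClasses (m : ℕ) (S : Set ℤ) : Prop :=
  ∃ R : Set ℕ, S = ⋃ r ∈ R, resClass r m

/-- Condition 1: the only unions of residue classes modulo `m` which `G` setwise stabilizes
are `∅` and `ℤ`. -/
def ConditionOne (G : Subgroup (Equiv.Perm ℤ)) (m : ℕ) : Prop :=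
  ∀ S : Set ℤ, IsUnionOfClasses m S → (∀ g ∈ G, g '' S = S) → S = ∅ ∨ S = Set.univ

/-- The integers `0, 1, …, N` all lie in a single orbit of `G` on `ℤ`
(condition 2 is the case `N = 42`). -/
def OneOrbitUpTo (G : Subgroup (Equiv.Perm ℤ)) (N : ℤ) : Prop :=
  ∀ i j : ℤ, 0 ≤ i → i ≤ N → 0 ≤ j → j ≤ N → j ∈ MulAction.orbit G i

/-! ### The three generators -/

def f0 (n : ℤ) : ℤ := if n % 2 = 0 then n + 1 else n - 1

def f1 (n : ℤ) : ℤ := if n % 2 = 0 then 2 * n + 3 else if n % 4 = 3 then (n - 3) / 2 else n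

def f2 (n : ℤ) : ℤ :=
  if n % 6 = 4 then 27 * ((n - 4) / 6) else if n % 27 = 0 then 6 * (n / 27) + 4 else n

theorem f0_inv : Function.Involutive f0 := by
  intro n
  unfold f0
  split_ifs <;> omega

theorem f1_inv : Function.Involutive f1 := by
  intro n
  unfold f1
  split_ifs <;> omega

theorem f2_inv : Function.Involutive f2 := by
  intro n
  unfold f2
  split_ifs <;> omega

def t0 : Equiv.Perm ℤ := f0_inv.toPerm
def t1 : Equiv.Perm ℤ := f1_inv.toPerm
def t2 : Equiv.Perm ℤ := f2_inv.toPerm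

theorem t0_apply (n : ℤ) : t0 n = f0 n := rfl
theorem t1_apply (n : ℤ) : t1 n = f1 n := rfl
theorem t2_apply (n : ℤ) : t2 n = f2 n := rfl

theorem ct0 : IsClassTransposition t0 0 2 1 2 where
  lt₁ := by norm_num
  lt₂ := by norm_num
  disjoint := by
    rw [Set.disjoint_left]
    rintro n ⟨k, hk⟩ ⟨l, hl⟩
    push_cast at hk hl
    omega
  map₁ := by
    intro k
    rw [t0_apply]; unfold f0; push_cast
    split_ifs <;> omega
  map₂ := by
    intro k
    rw [t0_apply]; unfold f0; push_cast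
    split_ifs <;> omega
  fixed := by
    intro n h1 h2
    exfalso
    rcases Int.emod_two_eq_zero_or_one n with h | h
    · exact h1 ⟨n / 2, by push_cast; omega⟩
    · exact h2 ⟨n / 2, by push_cast; omega⟩

theorem ct1 : IsClassTransposition t1 0 2 3 4 where
  lt₁ := by norm_num
  lt₂ := by norm_num
  disjoint := by
    rw [Set.disjoint_left]
    rintro n ⟨k, hk⟩ ⟨l, hl⟩
    push_cast at hk hl
    omega
  map₁ := by
    intro k
    rw [t1_apply]; unfold f1; push_cast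
    split_ifs <;> omega
  map₂ := by
    intro k
    rw [t1_apply]; unfold f1; push_cast
    split_ifs <;> omega
  fixed := by
    intro n h1 h2
    rw [t1_apply]; unfold f1
    split_ifs with h h'
    · exact absurd ⟨n / 2, by push_cast; omega⟩ h1
    · exact absurd ⟨n / 4, by push_cast; omega⟩ h2
    · rfl

theorem ct2 : IsClassTransposition t2 4 6 0 27 where
  lt₁ := by norm_num
  lt₂ := by norm_num
  disjoint := by
    rw [Set.disjoint_left]
    rintro n ⟨k, hk⟩ ⟨l, hl⟩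
    push_cast at hk hl
    omega
  map₁ := by
    intro k
    rw [t2_apply]; unfold f2; push_cast
    split_ifs <;> omega
  map₂ := by
    intro k
    rw [t2_apply]; unfold f2; push_cast
    split_ifs <;> omega
  fixed := by
    intro n h1 h2
    rw [t2_apply]; unfold f2
    split_ifs with h h'
    · exact absurd ⟨n / 6, by push_cast; omega⟩ h1
    · exact absurd ⟨n / 27, by push_cast; omega⟩ h2
    · rfl

/-- The group generated by the three class transpositions. -/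
abbrev G : Subgroup (Equiv.Perm ℤ) := Subgroup.closure {t0, t1, t2}

theorem t0_mem : t0 ∈ G := Subgroup.subset_closure (by simp)
theorem t1_mem : t1 ∈ G := Subgroup.subset_closure (by simp)
theorem t2_mem : t2 ∈ G := Subgroup.subset_closure (by simp)

/-! ### Condition 1 -/

theorem mem_iff_of_stab {S : Set ℤ} (hS : ∀ g ∈ G, g '' S = S) {g : Equiv.Perm ℤ} (hg : g ∈ G)
    (x : ℤ) : g x ∈ S ↔ x ∈ S := by
  constructor
  · intro h
    rw [← hS g hg] at h
    obtain ⟨y, hy, hyx⟩ := h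
    rwa [g.injective hyx] at hy
  · intro h
    rw [← hS g hg]
    exact ⟨x, h, rfl⟩

theorem condOne : ConditionOne G 108 := by
  intro S hU hS
  have hper : ∀ x : ℤ, x + 108 ∈ S ↔ x ∈ S := by
    obtain ⟨R, rfl⟩ := hU
    intro x
    simp only [Set.mem_iUnion, resClass, Set.mem_ofPred_eq]
    constructor
    · rintro ⟨r, hr, k, hk⟩
      refine ⟨r, hr, k - 1, ?_⟩
      push_cast at hk ⊢
      linarith
    · rintro ⟨r, hr, k, hk⟩
      refine ⟨r, hr, k + 1, ?_⟩
      push_cast at hk ⊢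
      linarith
  have ha : ∀ k : ℤ, (2 * k + 1 ∈ S ↔ 2 * k ∈ S) := by
    intro k
    have := mem_iff_of_stab hS t0_mem (2 * k)
    rw [t0_apply] at this
    have e : f0 (2 * k) = 2 * k + 1 := by unfold f0; split_ifs <;> omega
    rwa [e] at this
  have hb : ∀ k : ℤ, (4 * k + 3 ∈ S ↔ 2 * k ∈ S) := by
    intro k
    have := mem_iff_of_stab hS t1_mem (2 * k)
    rw [t1_apply] at this
    have e : f1 (2 * k) = 4 * k + 3 := by unfold f1; split_ifs <;> omega
    rwa [e] at this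
  have hc : ∀ j : ℤ, (27 * j ∈ S ↔ 6 * j + 4 ∈ S) := by
    intro j
    have := mem_iff_of_stab hS t2_mem (6 * j + 4)
    rw [t2_apply] at this
    have e : f2 (6 * j + 4) = 27 * j := by unfold f2; split_ifs <;> omega
    rwa [e] at this
  -- blocks
  obtain ⟨P, hP⟩ : ∃ P : ℤ → Prop, ∀ K, P K ↔ 2 * (K - 1) ∈ S := ⟨fun K => 2 * (K - 1) ∈ S, fun _ => Iff.rfl⟩
  have h2 : ∀ K, P (2 * K) ↔ P K := by
    intro K
    rw [hP, hP]
    have h1 := ha (2 * K - 1)
    have h3 := hb (K - 1)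
    have e1 : 2 * (2 * K - 1) + 1 = 4 * (K - 1) + 3 := by ring
    rw [e1] at h1
    rw [← h1, h3]
  have h54 : ∀ K, P (K + 54) ↔ P K := by
    intro K
    rw [hP, hP]
    have := hper (2 * (K - 1))
    have e1 : 2 * (K + 54 - 1) = 2 * (K - 1) + 108 := by ring
    rw [e1, this]
  have h27 : ∀ K, P (K + 27) ↔ P K := by
    intro K
    rw [← h2 (K + 27), ← h2 K]
    have e1 : 2 * (K + 27) = 2 * K + 54 := by ring
    rw [e1, h54]
  have h27n : ∀ (n : ℕ) (K : ℤ), P (K + 27 * n) ↔ P K := by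
    intro n
    induction n with
    | zero => intro K; simp
    | succ n ih =>
      intro K
      have e1 : K + 27 * ((n + 1 : ℕ) : ℤ) = (K + 27 * n) + 27 := by push_cast; ring
      rw [e1, h27, ih]
  have h27z : ∀ q K : ℤ, P (K + 27 * q) ↔ P K := by
    intro q K
    rcases Int.eq_nat_or_neg q with ⟨n, rfl | rfl⟩
    · exact h27n n K
    · have := h27n n (K + 27 * -(n : ℤ))
      have e1 : K + 27 * -(n : ℤ) + 27 * n = K := by ring
      rw [e1] at this
      exact this.symm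
  -- multiplication by two modulo 27
  have h2' : ∀ K L : ℤ, (2 * K - L) % 27 = 0 → (P L ↔ P K) := by
    intro K L h
    have e1 : L = 2 * K + 27 * (-((2 * K - L) / 27)) := by omega
    rw [e1, h27z, h2]
  have p2 : P 2 ↔ P 1 := h2' 1 2 (by norm_num)
  have p4 : P 4 ↔ P 1 := (h2' 2 4 (by norm_num)).trans p2
  have p8 : P 8 ↔ P 1 := (h2' 4 8 (by norm_num)).trans p4
  have p16 : P 16 ↔ P 1 := (h2' 8 16 (by norm_num)).trans p8
  have p5 : P 5 ↔ P 1 := (h2' 16 5 (by norm_num)).trans p16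
  have p10 : P 10 ↔ P 1 := (h2' 5 10 (by norm_num)).trans p5
  have p20 : P 20 ↔ P 1 := (h2' 10 20 (by norm_num)).trans p10
  have p13 : P 13 ↔ P 1 := (h2' 20 13 (by norm_num)).trans p20
  have p26 : P 26 ↔ P 1 := (h2' 13 26 (by norm_num)).trans p13
  have p25 : P 25 ↔ P 1 := (h2' 26 25 (by norm_num)).trans p26
  have p23 : P 23 ↔ P 1 := (h2' 25 23 (by norm_num)).trans p25
  have p19 : P 19 ↔ P 1 := (h2' 23 19 (by norm_num)).trans p23
  have p11 : P 11 ↔ P 1 := (h2' 19 11 (by norm_num)).trans p19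
  have p22 : P 22 ↔ P 1 := (h2' 11 22 (by norm_num)).trans p11
  have p17 : P 17 ↔ P 1 := (h2' 22 17 (by norm_num)).trans p22
  have p7 : P 7 ↔ P 1 := (h2' 17 7 (by norm_num)).trans p17
  have p14 : P 14 ↔ P 1 := (h2' 7 14 (by norm_num)).trans p7
  -- multiples of three
  have h3 : ∀ j : ℤ, P (3 * (j + 1)) ↔ P 1 := by
    intro j
    rw [hP (3 * (j + 1))]
    have e0 : 2 * (3 * (j + 1) - 1) = 6 * j + 4 := by ring
    rw [e0, ← hc]
    rcases Int.even_or_odd' j with ⟨i, rfl | rfl⟩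
    · have e1 : 27 * (2 * i) = 2 * ((1 + 27 * i) - 1) := by ring
      rw [e1, ← hP, h27z]
    · have e1 : 27 * (2 * i + 1) = 2 * (27 * i + 13) + 1 := by ring
      rw [e1, ha]
      have e2 : 2 * (27 * i + 13) = 2 * ((14 + 27 * i) - 1) := by ring
      rw [e2, ← hP, h27z, p14]
  have hall : ∀ K : ℤ, P K ↔ P 1 := by
    intro K
    have e1 : K = K % 27 + 27 * (K / 27) := by omega
    rw [e1, h27z]
    have hlo : 0 ≤ K % 27 := Int.emod_nonneg _ (by norm_num)
    have hhi : K % 27 < 27 := Int.emod_lt_of_pos _ (by norm_num)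
    by_cases hm : (K % 27) % 3 = 0
    · have e2 : K % 27 = 3 * (((K % 27) / 3 - 1) + 1) := by omega
      rw [e2]
      exact h3 _
    · generalize K % 27 = u at hlo hhi hm
      interval_cases u <;> first | exact absurd rfl hm | assumption | exact Iff.rfl
  have hfin : ∀ x : ℤ, x ∈ S ↔ P 1 := by
    intro x
    rcases Int.even_or_odd' x with ⟨k, rfl | rfl⟩
    · have e1 : 2 * k = 2 * ((k + 1) - 1) := by ring
      rw [e1, ← hP]
      exact hall _
    · rw [ha]
      have e1 : 2 * k = 2 * ((k + 1) - 1) := by ring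
      rw [e1, ← hP]
      exact hall _
  by_cases h1 : P 1
  · right
    ext x
    simp [hfin x, h1]
  · left
    ext x
    simp [hfin x, h1]

/-! ### The invariant -/

/-- The root of the tree containing `n`. -/
def root (n : ℕ) : ℕ :=
  if n = 0 then 0
  else if n % 2 = 0 then root (n / 2)
  else if n % 4 = 3 then root ((n + 1) / 4)
  else if n % 256 = 133 then root ((n + 123) / 256)
  else if n % 256 = 5 then root (n / 64 + 1)
  else n
termination_by n
decreasing_by all_goals omega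

theorem root_two (m : ℕ) : root (2 * m) = root m := by
  rcases Nat.eq_zero_or_pos m with rfl | hm
  · rfl
  · rw [root, if_neg (by omega), if_pos (by omega)]
    congr 1
    omega

theorem root_three (m : ℕ) : root (4 * m + 3) = root (m + 1) := by
  rw [root, if_neg (by omega), if_neg (by omega), if_pos (by omega)]
  congr 1
  omega

theorem root_133 (m : ℕ) : root (256 * m + 133) = root (m + 1) := by
  rw [root, if_neg (by omega), if_neg (by omega), if_neg (by omega), if_pos (by omega)]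
  congr 1
  omega

theorem root_five (m : ℕ) : root (256 * m + 5) = root (4 * m + 1) := by
  rw [root, if_neg (by omega), if_neg (by omega), if_neg (by omega), if_neg (by omega),
    if_pos (by omega)]
  congr 1
  omega

theorem root_self (n : ℕ) (h1 : n % 4 = 1) (h2 : n % 128 ≠ 5) : root n = n := by
  rw [root, if_neg (by omega), if_neg (by omega), if_neg (by omega), if_neg (by omega),
    if_neg (by omega)]

theorem root_chainA (q : ℕ) : root (262144 * q + 135927) = root (q + 1) := by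
  have e1 : 262144 * q + 135927 = 4 * (65536 * q + 33981) + 3 := by ring
  have e2 : 65536 * q + 33981 + 1 = 2 * (32768 * q + 16991) := by ring
  have e3 : 32768 * q + 16991 = 4 * (8192 * q + 4247) + 3 := by ring
  have e4 : 8192 * q + 4247 + 1 = 2 * (2 * (2 * (1024 * q + 531))) := by ring
  have e5 : 1024 * q + 531 = 4 * (256 * q + 132) + 3 := by ring
  have e6 : 256 * q + 132 + 1 = 256 * q + 133 := by ring
  rw [e1, root_three, e2, root_two, e3, root_three, e4, root_two, root_two, root_two, e5,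
    root_three, e6, root_133]

theorem root_chainB (i : ℕ) : root (131072 * i + 4855) = root (128 * i + 5) := by
  have e1 : 131072 * i + 4855 = 4 * (32768 * i + 1213) + 3 := by ring
  have e2 : 32768 * i + 1213 + 1 = 2 * (16384 * i + 607) := by ring
  have e3 : 16384 * i + 607 = 4 * (4096 * i + 151) + 3 := by ring
  have e4 : 4096 * i + 151 + 1 = 2 * (2 * (2 * (512 * i + 19))) := by ring
  have e5 : 512 * i + 19 = 4 * (128 * i + 4) + 3 := by ring
  have e6 : 128 * i + 4 + 1 = 128 * i + 5 := by ring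
  rw [e1, root_three, e2, root_two, e3, root_three, e4, root_two, root_two, root_two, e5,
    root_three, e6]

/-- For `u` prime to 3, `pw u` is the least power of two with `u * pw u ≡ 14 (mod 27)`. -/
def pw (u : ℕ) : ℕ :=
  if u = 14 then 1 else if u = 7 then 2 else if u = 17 then 4 else if u = 22 then 8
  else if u = 11 then 16 else if u = 19 then 32 else if u = 23 then 64 else if u = 25 then 128
  else if u = 26 then 256 else if u = 13 then 512 else if u = 20 then 1024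
  else if u = 10 then 2048 else if u = 5 then 4096 else if u = 16 then 8192
  else if u = 8 then 16384 else if u = 4 then 32768 else if u = 2 then 65536 else 131072

/-- The invariant on blocks. -/
def R (K : ℕ) : ℕ :=
  if K % 3 = 0 then root (K / 3) else root ((K * pw (K % 27) + 13) / 27)

theorem R_three (m : ℕ) : R (3 * m) = root m := by
  unfold R
  rw [if_pos (by omega)]
  congr 1
  omega

theorem R_unit (K u p q : ℕ) (hu : K % 27 = u) (hp : pw u = p) (h3 : u % 3 ≠ 0)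
    (hq : K * p + 13 = 27 * q) : R K = root q := by
  unfold R
  rw [if_neg (by omega), hu, hp, hq]
  congr 1
  omega

theorem R_two_unit (K u v : ℕ) (hu : K % 27 = u) (hv : (2 * K) % 27 = v) (h3 : u % 3 ≠ 0)
    (hp : pw v * 2 = pw u) : R (2 * K) = R K := by
  unfold R
  rw [if_neg (by omega), if_neg (by omega), hu, hv, ← hp]
  congr 3
  ring

theorem R_14 (q : ℕ) : R (27 * q + 14) = root (q + 1) :=
  R_unit _ 14 1 _ (by omega) rfl (by norm_num) (by ring)

theorem R_1 (i : ℕ) : R (27 * i + 1) = root (128 * i + 5) := by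
  rw [R_unit _ 1 131072 (131072 * i + 4855) (by omega) rfl (by norm_num) (by ring), root_chainB]

theorem R_28 (q : ℕ) : R (2 * (27 * q + 14)) = root (q + 1) := by
  rw [R_unit _ 1 131072 (262144 * q + 135927) (by omega) rfl (by norm_num) (by ring), root_chainA]

theorem R_two (K : ℕ) : R (2 * K) = R K := by
  by_cases h3 : K % 3 = 0
  · obtain ⟨m, rfl⟩ : ∃ m, K = 3 * m := ⟨K / 3, by omega⟩
    have e : 2 * (3 * m) = 3 * (2 * m) := by ring
    rw [e, R_three, R_three, root_two]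
  · by_cases h14 : K % 27 = 14
    · obtain ⟨q, rfl⟩ : ∃ q, K = 27 * q + 14 := ⟨K / 27, by omega⟩
      rw [R_28, R_14]
    · have hlt : K % 27 < 27 := Nat.mod_lt _ (by norm_num)
      refine R_two_unit K (K % 27) ((2 * (K % 27)) % 27) rfl (by omega) (by omega) ?_
      have h3' : (K % 27) % 3 ≠ 0 := by omega
      generalize K % 27 = u at hlt h3' h14
      interval_cases u <;> first | rfl | exact absurd rfl h3' | exact absurd rfl h14

/-! ### Invariance along the generators -/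

theorem R_c (j : ℕ) : R (3 * (j + 1)) = R (27 * j / 2 + 1) := by
  rcases Nat.even_or_odd' j with ⟨i, rfl | rfl⟩
  · have e1 : 27 * (2 * i) / 2 + 1 = 27 * i + 1 := by omega
    rw [e1, R_1, R_three]
    rcases Nat.even_or_odd' i with ⟨l, rfl | rfl⟩
    · have e2 : 128 * (2 * l) + 5 = 256 * l + 5 := by ring
      have e3 : 2 * (2 * l) + 1 = 4 * l + 1 := by ring
      rw [e2, root_five, e3]
    · have e2 : 128 * (2 * l + 1) + 5 = 256 * l + 133 := by ring
      have e3 : 2 * (2 * l + 1) + 1 = 4 * l + 3 := by ring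
      rw [e2, root_133, e3, root_three]
  · have e1 : 27 * (2 * i + 1) / 2 + 1 = 27 * i + 14 := by omega
    have e2 : 2 * i + 1 + 1 = 2 * (i + 1) := by ring
    rw [e1, R_14, R_three, e2, root_two]

/-- The invariant on nonnegative integers. -/
def rt (x : ℤ) : ℕ := R (x.toNat / 2 + 1)

theorem inv0 (x : ℤ) (hx : 0 ≤ x) : 0 ≤ f0 x ∧ rt (f0 x) = rt x := by
  unfold f0 rt
  split_ifs with h
  · refine ⟨by omega, ?_⟩
    congr 1
    omega
  · refine ⟨by omega, ?_⟩
    congr 1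
    omega

theorem inv1 (x : ℤ) (hx : 0 ≤ x) : 0 ≤ f1 x ∧ rt (f1 x) = rt x := by
  unfold f1 rt
  split_ifs with h h'
  · refine ⟨by omega, ?_⟩
    rw [← R_two (x.toNat / 2 + 1)]
    congr 1
    omega
  · refine ⟨by omega, ?_⟩
    rw [← R_two (((x - 3) / 2).toNat / 2 + 1)]
    congr 1
    omega
  · exact ⟨hx, rfl⟩

theorem inv2 (x : ℤ) (hx : 0 ≤ x) : 0 ≤ f2 x ∧ rt (f2 x) = rt x := by
  unfold f2 rt
  split_ifs with h h'
  · refine ⟨by omega, ?_⟩
    obtain ⟨j, rfl⟩ : ∃ j : ℕ, x = 6 * j + 4 := ⟨((x - 4) / 6).toNat, by omega⟩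
    have e1 : (27 * ((6 * (j : ℤ) + 4 - 4) / 6)).toNat / 2 + 1 = 27 * j / 2 + 1 := by omega
    have e2 : (6 * (j : ℤ) + 4).toNat / 2 + 1 = 3 * (j + 1) := by omega
    rw [e1, e2, R_c]
  · refine ⟨by omega, ?_⟩
    obtain ⟨j, rfl⟩ : ∃ j : ℕ, x = 27 * j := ⟨(x / 27).toNat, by omega⟩
    have e1 : (27 * (j : ℤ)).toNat / 2 + 1 = 27 * j / 2 + 1 := by omega
    have e2 : (6 * (27 * (j : ℤ) / 27) + 4).toNat / 2 + 1 = 3 * (j + 1) := by omega
    rw [e1, e2, R_c]
  · exact ⟨hx, rfl⟩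

theorem inv_of_gen (f : ℤ → ℤ) (hf : Function.Involutive f)
    (h : ∀ x, 0 ≤ x → 0 ≤ f x ∧ rt (f x) = rt x) (x : ℤ) :
    (0 ≤ f x ↔ 0 ≤ x) ∧ (0 ≤ x → rt (f x) = rt x) := by
  refine ⟨⟨fun h' => ?_, fun h' => (h x h').1⟩, fun h' => (h x h').2⟩
  have := (h (f x) h').1
  rwa [hf x] at this

theorem inv_group (g : Equiv.Perm ℤ) (hg : g ∈ G) :
    ∀ x : ℤ, (0 ≤ g x ↔ 0 ≤ x) ∧ (0 ≤ x → rt (g x) = rt x) := by
  induction hg using Subgroup.closure_induction with
  | mem g hg =>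
    intro x
    rcases hg with rfl | rfl | rfl
    · exact inv_of_gen f0 f0_inv inv0 x
    · exact inv_of_gen f1 f1_inv inv1 x
    · exact inv_of_gen f2 f2_inv inv2 x
  | one => intro x; exact ⟨Iff.rfl, fun _ => rfl⟩
  | mul g h _ _ ihg ihh =>
    intro x
    obtain ⟨h1, h2⟩ := ihh x
    obtain ⟨g1, g2⟩ := ihg (h x)
    rw [Equiv.Perm.mul_apply]
    exact ⟨g1.trans h1, fun hx => (g2 (h1.2 hx)).trans (h2 hx)⟩
  | inv g _ ih =>
    intro x
    obtain ⟨h1, h2⟩ := ih (g⁻¹ x)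
    have e : g (g⁻¹ x) = x := g.apply_symm_apply x
    rw [e] at h1 h2
    exact ⟨h1.symm, fun hx => (h2 (h1.1 hx)).symm⟩

theorem not_mem_orbit {x y : ℤ} (hx : 0 ≤ x) (h : rt y ≠ rt x) : y ∉ MulAction.orbit G x := by
  rintro ⟨⟨g, hg⟩, rfl⟩
  exact h ((inv_group g hg x).2 hx)

theorem rt_special (t : ℕ) : rt (1536 * (t : ℤ) + 52) = 256 * t + 9 := by
  unfold rt
  have e1 : (1536 * (t : ℤ) + 52).toNat / 2 + 1 = 3 * (256 * t + 9) := by omega
  rw [e1, R_three, root_self _ (by omega) (by omega)]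

theorem rt_zero : rt 0 = 1 := by
  unfold rt
  have e1 : (0 : ℤ).toNat / 2 + 1 = 27 * 0 + 1 := rfl
  rw [e1, R_1]
  have e2 : 128 * 0 + 5 = 256 * 0 + 5 := rfl
  rw [e2, root_five, root_self _ (by norm_num) (by norm_num)]

/-! ### Condition 2 -/

def gen (i : ℕ) : ℤ → ℤ := if i = 0 then f0 else if i = 1 then f1 else f2

def walk (x : ℤ) (w : List ℕ) : ℤ := w.foldl (fun y i => gen i y) x

theorem gen_orbit (i : ℕ) (x y : ℤ) (h : y ∈ MulAction.orbit G x) :
    gen i y ∈ MulAction.orbit G x := by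
  obtain ⟨g, rfl⟩ := h
  unfold gen
  split_ifs
  · exact ⟨⟨t0, t0_mem⟩ * g, rfl⟩
  · exact ⟨⟨t1, t1_mem⟩ * g, rfl⟩
  · exact ⟨⟨t2, t2_mem⟩ * g, rfl⟩

theorem walk_orbit (w : List ℕ) (x y : ℤ) (h : y ∈ MulAction.orbit G x) :
    walk y w ∈ MulAction.orbit G x := by
  induction w generalizing y with
  | nil => exact h
  | cons i w ih => exact ih _ (gen_orbit i x y h)

theorem walk_to (w : List ℕ) (y x : ℤ) (hy : y ∈ MulAction.orbit G (0 : ℤ))
    (h : walk y w = x) : x ∈ MulAction.orbit G (0 : ℤ) := by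
  rw [← h]
  exact walk_orbit w 0 y hy

set_option maxRecDepth 10000 in
theorem small_mem (i : ℤ) (h0 : 0 ≤ i) (h1 : i ≤ 51) : i ∈ MulAction.orbit G (0 : ℤ) := by
  have o0 : (0 : ℤ) ∈ MulAction.orbit G (0 : ℤ) := MulAction.mem_orbit_self 0
  have o1 : (1 : ℤ) ∈ MulAction.orbit G (0 : ℤ) :=
    walk_to [0] 0 1 o0 (by decide)
  have o2 : (2 : ℤ) ∈ MulAction.orbit G (0 : ℤ) :=
    walk_to [1, 0] 0 2 o0 (by decide)
  have o3 : (3 : ℤ) ∈ MulAction.orbit G (0 : ℤ) :=
    walk_to [0] 2 3 o2 (by decide)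
  have o4 : (4 : ℤ) ∈ MulAction.orbit G (0 : ℤ) :=
    walk_to [2] 0 4 o0 (by decide)
  have o5 : (5 : ℤ) ∈ MulAction.orbit G (0 : ℤ) :=
    walk_to [0] 4 5 o4 (by decide)
  have o6 : (6 : ℤ) ∈ MulAction.orbit G (0 : ℤ) :=
    walk_to [1, 0] 2 6 o2 (by decide)
  have o7 : (7 : ℤ) ∈ MulAction.orbit G (0 : ℤ) :=
    walk_to [0] 6 7 o6 (by decide)
  have o8 : (8 : ℤ) ∈ MulAction.orbit G (0 : ℤ) :=
    walk_to [1, 0, 2, 0, 1, 0, 2, 1, 0, 1, 0, 1, 0, 1, 0, 2, 0, 1, 0, 2, 1, 0, 1, 0, 2, 0, 1, 0, 2, 1, 0, 2, 1, 0, 1, 0, 1, 0, 1, 0, 1, 0, 1, 0, 1, 0, 1, 0, 1, 0, 1, 0, 1, 0, 1] 4 8 o4 (by decide)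
  have o9 : (9 : ℤ) ∈ MulAction.orbit G (0 : ℤ) :=
    walk_to [0] 8 9 o8 (by decide)
  have o10 : (10 : ℤ) ∈ MulAction.orbit G (0 : ℤ) :=
    walk_to [1, 0] 4 10 o4 (by decide)
  have o11 : (11 : ℤ) ∈ MulAction.orbit G (0 : ℤ) :=
    walk_to [0] 10 11 o10 (by decide)
  have o12 : (12 : ℤ) ∈ MulAction.orbit G (0 : ℤ) :=
    walk_to [2, 1] 10 12 o10 (by decide)
  have o13 : (13 : ℤ) ∈ MulAction.orbit G (0 : ℤ) :=
    walk_to [0] 12 13 o12 (by decide)
  have o14 : (14 : ℤ) ∈ MulAction.orbit G (0 : ℤ) :=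
    walk_to [1, 0] 6 14 o6 (by decide)
  have o15 : (15 : ℤ) ∈ MulAction.orbit G (0 : ℤ) :=
    walk_to [0] 14 15 o14 (by decide)
  have o16 : (16 : ℤ) ∈ MulAction.orbit G (0 : ℤ) :=
    walk_to [1, 0, 1, 0, 2] 12 16 o12 (by decide)
  have o17 : (17 : ℤ) ∈ MulAction.orbit G (0 : ℤ) :=
    walk_to [0] 16 17 o16 (by decide)
  have o18 : (18 : ℤ) ∈ MulAction.orbit G (0 : ℤ) :=
    walk_to [1, 0] 8 18 o8 (by decide)
  have o19 : (19 : ℤ) ∈ MulAction.orbit G (0 : ℤ) :=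
    walk_to [0] 18 19 o18 (by decide)
  have o20 : (20 : ℤ) ∈ MulAction.orbit G (0 : ℤ) :=
    walk_to [1, 0, 2, 0, 1, 0, 2, 1, 0, 2, 1, 0, 1, 0, 1, 0, 1] 10 20 o10 (by decide)
  have o21 : (21 : ℤ) ∈ MulAction.orbit G (0 : ℤ) :=
    walk_to [0] 20 21 o20 (by decide)
  have o22 : (22 : ℤ) ∈ MulAction.orbit G (0 : ℤ) :=
    walk_to [1, 0] 10 22 o10 (by decide)
  have o23 : (23 : ℤ) ∈ MulAction.orbit G (0 : ℤ) :=
    walk_to [0] 22 23 o22 (by decide)
  have o24 : (24 : ℤ) ∈ MulAction.orbit G (0 : ℤ) :=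
    walk_to [1, 0, 1, 0, 2, 0, 1, 0, 2, 1, 0, 1, 0, 2, 0, 1, 0, 2, 1, 0, 2, 1, 0, 1, 0, 1, 0, 1, 0, 1, 0, 1, 0, 1, 0, 1, 0, 1] 22 24 o22 (by decide)
  have o25 : (25 : ℤ) ∈ MulAction.orbit G (0 : ℤ) :=
    walk_to [0] 24 25 o24 (by decide)
  have o26 : (26 : ℤ) ∈ MulAction.orbit G (0 : ℤ) :=
    walk_to [1, 0] 12 26 o12 (by decide)
  have o27 : (27 : ℤ) ∈ MulAction.orbit G (0 : ℤ) :=
    walk_to [0] 26 27 o26 (by decide)
  have o28 : (28 : ℤ) ∈ MulAction.orbit G (0 : ℤ) :=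
    walk_to [1, 0, 1, 0, 1, 0, 1, 0, 1, 0, 1, 0, 1, 0, 1, 0, 1, 0, 1, 0, 1, 0, 1, 0, 1, 0, 1, 2, 0, 1, 2, 0, 1, 0, 2, 0, 1, 0, 1, 2, 0, 1, 0, 2, 0, 1, 0, 1, 0, 1, 0, 1, 2, 0, 1, 0, 2, 0, 1] 14 28 o14 (by decide)
  have o29 : (29 : ℤ) ∈ MulAction.orbit G (0 : ℤ) :=
    walk_to [0] 28 29 o28 (by decide)
  have o30 : (30 : ℤ) ∈ MulAction.orbit G (0 : ℤ) :=
    walk_to [1, 0] 14 30 o14 (by decide)
  have o31 : (31 : ℤ) ∈ MulAction.orbit G (0 : ℤ) :=
    walk_to [0] 30 31 o30 (by decide)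
  have o32 : (32 : ℤ) ∈ MulAction.orbit G (0 : ℤ) :=
    walk_to [1, 0, 2, 1, 0, 1] 16 32 o16 (by decide)
  have o33 : (33 : ℤ) ∈ MulAction.orbit G (0 : ℤ) :=
    walk_to [0] 32 33 o32 (by decide)
  have o34 : (34 : ℤ) ∈ MulAction.orbit G (0 : ℤ) :=
    walk_to [1, 0] 16 34 o16 (by decide)
  have o35 : (35 : ℤ) ∈ MulAction.orbit G (0 : ℤ) :=
    walk_to [0] 34 35 o34 (by decide)
  have o36 : (36 : ℤ) ∈ MulAction.orbit G (0 : ℤ) :=
    walk_to [1, 0, 2, 0, 1, 0, 2, 1, 0, 2, 1, 0, 1, 0, 1, 0, 1, 0, 1] 34 36 o34 (by decide)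
  have o37 : (37 : ℤ) ∈ MulAction.orbit G (0 : ℤ) :=
    walk_to [0] 36 37 o36 (by decide)
  have o38 : (38 : ℤ) ∈ MulAction.orbit G (0 : ℤ) :=
    walk_to [1, 0] 18 38 o18 (by decide)
  have o39 : (39 : ℤ) ∈ MulAction.orbit G (0 : ℤ) :=
    walk_to [0] 38 39 o38 (by decide)
  have o40 : (40 : ℤ) ∈ MulAction.orbit G (0 : ℤ) :=
    walk_to [2, 0, 1, 0, 2] 22 40 o22 (by decide)
  have o41 : (41 : ℤ) ∈ MulAction.orbit G (0 : ℤ) :=
    walk_to [0] 40 41 o40 (by decide)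
  have o42 : (42 : ℤ) ∈ MulAction.orbit G (0 : ℤ) :=
    walk_to [1, 0] 20 42 o20 (by decide)
  have o43 : (43 : ℤ) ∈ MulAction.orbit G (0 : ℤ) :=
    walk_to [0] 42 43 o42 (by decide)
  have o44 : (44 : ℤ) ∈ MulAction.orbit G (0 : ℤ) :=
    walk_to [1, 0, 1, 0, 2, 0, 1, 0, 2, 1, 0, 2, 1, 0, 1, 0, 1, 0, 1, 0, 1, 0, 1] 40 44 o40 (by decide)
  have o45 : (45 : ℤ) ∈ MulAction.orbit G (0 : ℤ) :=
    walk_to [0] 44 45 o44 (by decide)
  have o46 : (46 : ℤ) ∈ MulAction.orbit G (0 : ℤ) :=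
    walk_to [1, 0] 22 46 o22 (by decide)
  have o47 : (47 : ℤ) ∈ MulAction.orbit G (0 : ℤ) :=
    walk_to [0] 46 47 o46 (by decide)
  have o48 : (48 : ℤ) ∈ MulAction.orbit G (0 : ℤ) :=
    walk_to [2, 0, 1, 0, 2, 1, 0, 1, 0, 2, 0, 1, 0, 2, 1, 0, 2, 1, 0, 1, 0, 1, 0, 1, 0, 1, 0, 1, 0, 1] 46 48 o46 (by decide)
  have o49 : (49 : ℤ) ∈ MulAction.orbit G (0 : ℤ) :=
    walk_to [0] 48 49 o48 (by decide)
  have o50 : (50 : ℤ) ∈ MulAction.orbit G (0 : ℤ) :=
    walk_to [1, 0] 24 50 o24 (by decide)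
  have o51 : (51 : ℤ) ∈ MulAction.orbit G (0 : ℤ) :=
    walk_to [0] 50 51 o50 (by decide)
  interval_cases i <;> assumption

theorem condTwo : OneOrbitUpTo G 51 := by
  intro i j hi0 hi1 hj0 hj1
  have hi := small_mem i hi0 hi1
  have hj := small_mem j hj0 hj1
  rw [MulAction.orbit_eq_iff.mpr hi]
  exact hj

/-- **Disproof of the question.** The class transpositions `τ_{0(2),1(2)}`, `τ_{0(2),3(4)}` and
`τ_{4(6),0(27)}` generate a group which satisfies condition 1 (with `m` the least common multiple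
of the six moduli) and has all of `0, 1, …, 51` (in particular `0, 1, …, 42`, condition 2) in one
orbit, but `52` is not in the orbit of `0`; in fact the group has infinitely many orbits on the
nonnegative integers. -/
theorem result :
    ∃ τ₁ τ₂ τ₃ : Equiv.Perm ℤ,
      IsClassTransposition τ₁ 0 2 1 2 ∧
      IsClassTransposition τ₂ 0 2 3 4 ∧
      IsClassTransposition τ₃ 4 6 0 27 ∧
      ConditionOne (Subgroup.closure {τ₁, τ₂, τ₃})
        (Nat.lcm 2 (Nat.lcm 2 (Nat.lcm 2 (Nat.lcm 4 (Nat.lcm 6 27))))) ∧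
      OneOrbitUpTo (Subgroup.closure {τ₁, τ₂, τ₃}) 51 ∧
      (52 : ℤ) ∉ MulAction.orbit (Subgroup.closure {τ₁, τ₂, τ₃}) (0 : ℤ) ∧
      ∃ x : ℕ → ℤ, (∀ s, 0 ≤ x s) ∧
        ∀ s t, s ≠ t → x t ∉ MulAction.orbit (Subgroup.closure {τ₁, τ₂, τ₃}) (x s) := by
  refine ⟨t0, t1, t2, ct0, ct1, ct2, ?_, condTwo, ?_, fun s => 1536 * (s : ℤ) + 52, ?_, ?_⟩
  · have e : Nat.lcm 2 (Nat.lcm 2 (Nat.lcm 2 (Nat.lcm 4 (Nat.lcm 6 27)))) = 108 := by decide
    rw [e]
    exact condOne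
  · refine not_mem_orbit le_rfl ?_
    have h := rt_special 0
    simp only [Nat.cast_zero, mul_zero, zero_add] at h
    rw [h, rt_zero]
    norm_num
  · intro s
    positivity
  · intro s t hst
    refine not_mem_orbit (by positivity) ?_
    rw [rt_special, rt_special]
    omega

end Pool.Agent.Results.MP_d0f150_al.FortyTwoCounterexample
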